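import Pool.Agent.R988.TV

/-!
# Uniform Anderson model, `d ≥ 2`, small `c`: the motion at all times

`Δ_ω = -Δ + ω` on `ℤ^d`, `d ≥ 2`, with iid `ω_j` uniform on `[-c, c]`. Let `ψ_t = e^{-itΔ_ω} δ_0`
and let `P_T(x)` be the probability to find the particle at `x` at an independent exponential time
of mean `T`.

For every `ε > 0` and `0 < c ≤ c₀(d, ε)`: for **all** times `T ≥ c^{-(2 + 1/41)}`, without any upper
restriction on the time, and for every coordinate `i`,

* `E P_T({x : |x_i| ≤ c^{-(2 + 1/83)}}) ≤ ε`: beyond the mean free path `c^{-2}`, the particle does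
  not stay at, nor come back to, the distances below `c^{-(2 + 1/83)}`, whatever the spectral type;
* `E ∑_x x_i² P_T(x) ≤ ε T²`: the motion is far from ballistic, uniformly in the time.
-/

set_option autoImplicit false

open scoped BigOperators ENNReal Topology
open MeasureTheory Filter

namespace Pool.Agent.Results.MP_562b47_mp.AllTimes

/-- the uniform law on `[-c, c]` -/
noncomputable def unif (c : ℝ) : Measure ℝ :=
  ENNReal.ofReal (1 / (2 * c)) • volume.restrict (Set.Icc (-c) c)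

/-- iid variables on `ℤ^d`, uniform on `[-c, c]` -/
noncomputable def iid (d : ℕ) (c : ℝ) : Measure ((Fin d → ℤ) → ℝ) :=
  Measure.infinitePi fun _ => unif c

/-- `(Δ_ω u)(j) = -∑_{|n|=1} (u(j+n) - u(j)) + ω_j u(j)` (the unit vectors `n` are `± e_i`) -/
noncomputable def H {d : ℕ} (ω : (Fin d → ℤ) → ℝ) (u : (Fin d → ℤ) → ℂ) (j : Fin d → ℤ) : ℂ :=
  -∑ i : Fin d, ((u (j + Pi.single i 1) - u j) + (u (j - Pi.single i 1) - u j)) + (ω j : ℂ) * u j

/-- `ψ_t = e^{-itΔ_ω} δ_0`: the solution of the Schrodinger equation started from `δ_0` -/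
structure IsEvolution {d : ℕ} (ω : (Fin d → ℤ) → ℝ) (ψ : ℝ → (Fin d → ℤ) → ℂ) : Prop where
  init : ∀ x, ψ 0 x = if x = 0 then 1 else 0
  ode : ∀ t x, HasDerivAt (fun s => ψ s x) (-Complex.I * H ω (ψ t) x) t
  norm : ∀ t, HasSum (fun x => ‖ψ t x‖ ^ 2) 1

/-- `P_T(x) = (1/T) ∫_0^∞ e^{-t/T} |ψ_t(x)|² dt`, the probability to find the particle at `x` at an
independent exponential time of mean `T` -/
noncomputable def prob {d : ℕ} (ψ : ℝ → (Fin d → ℤ) → ℂ) (T : ℝ) (x : Fin d → ℤ) : ℝ :=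
  (1 / T) * ∫ t in Set.Ioi (0 : ℝ), Real.exp (-(t / T)) * ‖ψ t x‖ ^ 2

/-- `P_T({x : |x_i| ≤ r})` -/
noncomputable def slab {d : ℕ} (ψ : ℝ → (Fin d → ℤ) → ℂ) (T : ℝ) (i : Fin d) (r : ℝ) : ℝ :=
  ∑' x : Fin d → ℤ, if |(x i : ℝ)| ≤ r then prob ψ T x else 0

/-- the second moment `∑_x x_i² P_T(x)` -/
noncomputable def moment {d : ℕ} (ψ : ℝ → (Fin d → ℤ) → ℂ) (T : ℝ) (i : Fin d) : ℝ≥0∞ :=
  ∑' x : Fin d → ℤ, ENNReal.ofReal ((x i : ℝ) ^ 2 * prob ψ T x)

theorem unif_prob (c : ℝ) (hc : 0 < c) : IsProbabilityMeasure (unif c) := by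
  refine ⟨?_⟩
  unfold unif
  rw [Measure.smul_apply, Measure.restrict_apply MeasurableSet.univ, Set.univ_inter,
    Real.volume_Icc, smul_eq_mul, ← ENNReal.ofReal_mul (by positivity)]
  have : 1 / (2 * c) * (c - -c) = 1 := by
    field_simp
    ring
  rw [this, ENNReal.ofReal_one]

theorem unif_bdd : ∀ᵐ s ∂(unif 1), |s| ≤ 1 := by
  unfold unif
  refine Measure.ae_smul_measure ?_ _
  filter_upwards [ae_restrict_mem measurableSet_Icc] with s hs
  exact abs_le.2 hs

theorem unif_int (f : ℝ → ℝ) : ∫ s, f s ∂(unif 1) = (1 / 2) * ∫ s in (-1 : ℝ)..1, f s := by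
  unfold unif
  rw [integral_smul_measure, ENNReal.toReal_ofReal (by norm_num), smul_eq_mul,
    intervalIntegral.integral_of_le (by norm_num), integral_Icc_eq_integral_Ioc]
  norm_num

theorem unif_mean : ∫ s, s ∂(unif 1) = 0 := by
  rw [unif_int, integral_id]
  norm_num

theorem unif_var : ∫ s, (s - 0) ^ 2 ∂(unif 1) = 1 / 3 := by
  rw [unif_int]
  simp only [sub_zero]
  rw [integral_pow]
  norm_num

/-- the uniform law on `[-c, c]` is the image of that on `[-1, 1]` -/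
theorem unif_scale (c : ℝ) (hc : 0 < c) : (unif 1).map (fun s => c * s) = unif c := by
  have hm : Measurable fun s : ℝ => c * s := by fun_prop
  unfold unif
  rw [Measure.map_smul]
  have h1 : (volume.restrict (Set.Icc (-1 : ℝ) 1)).map (fun s : ℝ => c * s) =
      ENNReal.ofReal (1 / c) • volume.restrict (Set.Icc (-c) c) := by
    have h2 : Set.Icc (-1 : ℝ) 1 = (fun s : ℝ => c * s) ⁻¹' Set.Icc (-c) c := by
      ext s
      simp only [Set.mem_Icc, Set.mem_preimage]
      constructor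
      · rintro ⟨h3, h4⟩
        constructor <;> nlinarith
      · rintro ⟨h3, h4⟩
        constructor <;> nlinarith
    rw [h2, ← Measure.restrict_map hm measurableSet_Icc, Real.map_volume_mul_left hc.ne',
      Measure.restrict_smul, abs_inv, abs_of_pos hc, one_div]
  rw [h1, smul_smul, ← ENNReal.ofReal_mul (by norm_num)]
  congr 2
  field_simp

/-- **Theorem.** -/
theorem result (d : ℕ) (hd : 2 ≤ d) (ε : ℝ) (hε : 0 < ε) :
    ∃ c0 : ℝ, 0 < c0 ∧ ∀ c : ℝ, 0 < c → c ≤ c0 →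
      (∀ᵐ ω ∂(iid d c), ∃ ψ, IsEvolution ω ψ) ∧
      ∀ ψ : ((Fin d → ℤ) → ℝ) → ℝ → (Fin d → ℤ) → ℂ,
        (∀ᵐ ω ∂(iid d c), IsEvolution ω (ψ ω)) →
        ∀ T : ℝ, c ^ (-(2 + 1 / 41) : ℝ) ≤ T → ∀ i : Fin d,
          AEMeasurable (fun ω => slab (ψ ω) T i (c ^ (-(2 + 1 / 83) : ℝ))) (iid d c) ∧
          ∫ ω, slab (ψ ω) T i (c ^ (-(2 + 1 / 83) : ℝ)) ∂(iid d c) ≤ ε ∧
          ∫⁻ ω, moment (ψ ω) T i ∂(iid d c) ≤ ENNReal.ofReal (ε * T ^ 2) := by
  obtain ⟨c0, hc0, hc01, h⟩ := Pool.Agent.R988.Tor.S1w d hd 1 (1 / 3) ε one_pos (by norm_num) hε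
  obtain ⟨c1, hc1, hc11, h'⟩ := Pool.Agent.R988.Tor.S2w d hd 1 (1 / 3) (ε / 4) one_pos
    (by norm_num) (by positivity)
  refine ⟨min c0 c1, lt_min hc0 hc1, fun c hc hle => ?_⟩
  haveI hp1 := unif_prob 1 one_pos
  haveI hpc := unif_prob c hc
  obtain ⟨h1, h2⟩ := h c hc (hle.trans (min_le_left _ _)) (unif 1) hp1 unif_bdd 0 (1 / 3)
    unif_mean unif_var le_rfl
  have h2' := h' c hc (hle.trans (min_le_right _ _)) (unif 1) hp1 unif_bdd 0 (1 / 3)
    unif_mean unif_var le_rfl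
  -- the scaling
  set e : ((Fin d → ℤ) → ℝ) ≃ᵐ ((Fin d → ℤ) → ℝ) := MeasurableEquiv.smul₀ c hc.ne' with he
  have hei : ∀ ω, e ω = fun x => c * ω x := fun ω => rfl
  have hmap : (Measure.infinitePi fun _ : Fin d → ℤ => unif 1).map e = iid d c := by
    have h3 := Measure.infinitePi_map_pi (μ := fun _ : Fin d → ℤ => unif 1)
      (f := fun _ (s : ℝ) => c * s) (fun _ => by fun_prop)
    unfold iid
    rw [← unif_scale c hc]
    exact h3
  have hHS : ∀ (ω : (Fin d → ℤ) → ℝ) (u : (Fin d → ℤ) → ℂ) (x : Fin d → ℤ), H (e ω) u x =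
      -Pool.Agent.W788.LD.Spec.S u x + ((2 * d + c * ω x : ℝ) : ℂ) * u x := by
    intro ω u x
    rw [hei]
    unfold H Pool.Agent.W788.LD.Spec.S
    have h2 : ∑ i : Fin d, ((u (x + Pi.single i 1) - u x) + (u (x - Pi.single i 1) - u x)) =
        ∑ i : Fin d, (u (x + Pi.single i 1) + u (x - Pi.single i 1)) - 2 * (d : ℂ) * u x := by
      rw [Finset.sum_add_distrib, Finset.sum_sub_distrib, Finset.sum_sub_distrib,
        Finset.sum_add_distrib]
      simp
      ring
    rw [h2]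
    push_cast
    ring
  refine ⟨?_, fun ψ hψ T hT i => ?_⟩
  · rw [← hmap, e.measurableEmbedding.ae_map_iff]
    filter_upwards [h1] with ω hω
    obtain ⟨ψ, hψ⟩ := hω
    refine ⟨ψ, hψ.init, fun t x => ?_, hψ.norm⟩
    rw [hHS]
    exact hψ.ode t x
  · have hψ' : ∀ᵐ ω ∂(Measure.infinitePi fun _ : Fin d → ℤ => unif 1),
        Pool.Agent.TH794.QD.Sol d (fun x => 2 * (d : ℝ) + c * ω x) 0 (ψ (e ω)) := by
      rw [← hmap, e.measurableEmbedding.ae_map_iff] at hψ
      filter_upwards [hψ] with ω hω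
      refine ⟨hω.init, fun t x => ?_, hω.norm⟩
      rw [← hHS]
      exact hω.ode t x
    have hTp : 0 < T := (Real.rpow_pos_of_pos hc _).trans_le hT
    have hη : 1 / (2 * T) ≤ c ^ (83 / 41 : ℝ) := by
      have e1 : (-(2 + 1 / 41) : ℝ) = -(83 / 41) := by norm_num
      rw [e1, Real.rpow_neg hc.le] at hT
      rw [div_le_iff₀ (by positivity)]
      have hp : 0 < c ^ (83 / 41 : ℝ) := Real.rpow_pos_of_pos hc _
      have h3 := mul_le_mul_of_nonneg_left hT hp.le
      rw [mul_inv_cancel₀ hp.ne'] at h3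
      linarith
    have e4 : ∀ (φ : ℝ → (Fin d → ℤ) → ℂ) (z : Fin d → ℤ),
        prob φ T z = Pool.Agent.R988.Tor.pb (1 / (2 * T)) φ z := by
      intro φ z
      unfold prob Pool.Agent.R988.Tor.pb
      have e5 : 2 * (1 / (2 * T)) = 1 / T := by field_simp
      rw [e5]
      congr 1
      refine integral_congr_ae (Eventually.of_forall fun t => ?_)
      simp only
      congr 2
      ring
    have h3 := h2 (fun ω => ψ (e ω)) hψ' i (1 / (2 * T)) (by positivity) hη
    have h3' := h2' (fun ω => ψ (e ω)) hψ' i (1 / (2 * T)) (by positivity) hη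
    have e2 : (-(2 + 1 / 83) : ℝ) = -(167 / 83) := by norm_num
    have e3 : ∀ (φ : ℝ → (Fin d → ℤ) → ℂ) (r : ℝ), slab φ T i r = ∑' z : Fin d → ℤ,
        (if |(z i : ℝ)| ≤ r then (1 : ℝ) else 0) *
          Pool.Agent.R988.Tor.pb (1 / (2 * T)) φ z := by
      intro φ r
      unfold slab
      refine tsum_congr fun z => ?_
      rw [e4]
      split_ifs <;> simp
    refine ⟨?_, ?_, ?_⟩
    · simp only [e3, e2]
      rw [← hmap]
      exact (e.measurableEmbedding.aemeasurable_map_iff).2 h3.1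
    · simp only [e3, e2]
      rw [← hmap, integral_map_equiv]
      exact h3.2
    · unfold moment
      simp only [e4]
      rw [← hmap, lintegral_map_equiv]
      refine h3'.trans (le_of_eq ?_)
      congr 1
      field_simp
      norm_num

end Pool.Agent.Results.MP_562b47_mp.AllTimes
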