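import Pool.Agent.R989.Th2

/-!
# Dimension two: localization below `-K c² log (1/c)`, uniform disorder

For the Anderson model `Δ_ω = -Δ + ω` on `ℤ²` with iid `ω_j` uniform on `[-c, c]` and small `c` there is
exponential localization at all energies at distance at least `K c² log (1/c)` from `[0, 8]`.
The spectrum is `[-c, 8 + c]` almost surely.
-/

set_option autoImplicit false

open scoped BigOperators ENNReal
open MeasureTheory

namespace Pool.Agent.Results.MP_562b47_mp.EdgeTwo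

/-- the uniform law on `[-c, c]` -/
noncomputable def unif (c : ℝ) : Measure ℝ :=
  ENNReal.ofReal (1 / (2 * c)) • volume.restrict (Set.Icc (-c) c)

/-- `(Δ_ω u)(j) = -∑_{|n|=1} (u(j+n) - u(j)) + ω_j u(j)` -/
noncomputable def H {d : ℕ} (ω : (Fin d → ℤ) → ℝ) (u : (Fin d → ℤ) → ℂ) (j : Fin d → ℤ) : ℂ :=
  -∑ i : Fin d, ((u (j + Pi.single i 1) - u j) + (u (j - Pi.single i 1) - u j)) + (ω j : ℂ) * u j

/-- square summable functions -/
def SqSummable {d : ℕ} (u : (Fin d → ℤ) → ℂ) : Prop := Summable fun x => ‖u x‖ ^ 2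

/-- `μ` is the spectral measure of the vector `g`: a finite measure whose Borel transform
`∫ (E - z)⁻¹ dμ(E)` is `⟨g, (H - z)⁻¹ g⟩` for all non-real `z` -/
def IsSpectralMeasure {d : ℕ} (A : ((Fin d → ℤ) → ℂ) → (Fin d → ℤ) → ℂ) (g : (Fin d → ℤ) → ℂ)
    (μ : Measure ℝ) : Prop :=
  IsFiniteMeasure μ ∧ ∀ z : ℂ, z.im ≠ 0 → ∃ u : (Fin d → ℤ) → ℂ, SqSummable u ∧
    (∀ x, A u x - z * u x = g x) ∧ ∫ E : ℝ, ((E : ℂ) - z)⁻¹ ∂μ = ∑' x, (starRingEnd ℂ) (g x) * u x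

/-- exponential localization of the operator `A` at the energies in `S`, with rate `m`:
every polynomially bounded solution of `A ψ = E ψ`, `E ∈ S`, decays exponentially with rate `m`, and
the spectral measures are pure point in `S` (carried there by a countable set) -/
def Localized {d : ℕ} (A : ((Fin d → ℤ) → ℂ) → (Fin d → ℤ) → ℂ) (S : Set ℝ) (m : ℝ) : Prop :=
  (∀ E ∈ S, ∀ ψ : (Fin d → ℤ) → ℂ, (∃ (C : ℝ) (n : ℕ), ∀ x, ‖ψ x‖ ≤ C * (1 + ‖x‖) ^ n) →
    (∀ x, A ψ x = (E : ℂ) * ψ x) → ∃ C : ℝ, ∀ x, ‖ψ x‖ ≤ C * Real.exp (-(m * ‖x‖))) ∧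
  ∃ N : Set ℝ, N.Countable ∧ ∀ (g : (Fin d → ℤ) → ℂ) (μ : Measure ℝ), SqSummable g →
    IsSpectralMeasure A g μ → μ (S \ N) = 0

/-- **Theorem.** In dimension two, for `0 < c ≤ k` and `K c² log (1/c) ≤ κ ≤ 1`, almost surely there is
exponential localization at all energies `E ≤ -κ` and `E ≥ 8 + κ`, with rate
`k √κ / log (2 / (κ c))`. -/
theorem result :
    ∃ k K : ℝ, 0 < k ∧ 0 < K ∧ ∀ c : ℝ, 0 < c → c ≤ k →
      ∀ κ : ℝ, K * c ^ 2 * Real.log (1 / c) ≤ κ → κ ≤ 1 →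
        ∀ᵐ ω ∂(Measure.infinitePi fun _ : Fin 2 → ℤ => unif c),
          Localized (H ω) {E | E ≤ -κ ∨ 8 + κ ≤ E}
            (k * Real.sqrt κ / Real.log (2 / (κ * c))) :=
  Pool.Agent.R989.Th2.result

end Pool.Agent.Results.MP_562b47_mp.EdgeTwo
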