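import Pool.Agent.R988.NQ.QAll
import Pool.Agent.R988.NQ.Mom2
import Pool.Agent.H5R2.NB.FIN

/-!
# Almost surely nothing moves ballistically in the Anderson model, at any disorder

`Δ_ω = -Δ + ω` on `ℓ²(ℤ^d)`, any `d`, `ω_j` iid with any law of bounded density, for instance uniform
on `[-c,c]`, any `c > 0`. For almost every `ω`, every initial state `u` with finite second moment
satisfies `⟨|x|²⟩(e^{-itΔ_ω} u) = o(t²)`, and for every `u` in `ℓ²` the time average over `[0,T]` of
the velocity `e^{isΔ_ω} v e^{-isΔ_ω} u` tends to zero in `ℓ²`: the asymptotic velocity exists and is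
zero.
-/

set_option autoImplicit false

open MeasureTheory Filter Topology
open scoped BigOperators ENNReal NNReal InnerProductSpace

namespace Pool.Agent.Results.MP_562b47_mp.NoBallisticMotion

/-- `ℓ²(ℤ^d)` -/
abbrev L2 (d : ℕ) : Type := lp (fun _ : Fin d → ℤ => ℂ) 2

/-- the operator of the problem, `(Δ_ω u)(j) = -∑_{|n|=1} (u(j+n) - u(j)) + ω_j u(j)` (the unit
vectors `n` are `± e_i`) -/
noncomputable def H {d : ℕ} (ω : (Fin d → ℤ) → ℝ) (u : (Fin d → ℤ) → ℂ) (j : Fin d → ℤ) : ℂ :=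
  -(∑ i : Fin d, ((u (j + Pi.single i 1) - u j) + (u (j - Pi.single i 1) - u j))) + (ω j : ℂ) * u j

/-- `U t = e^{-itΔ_ω}`: norm preserving maps of `ℓ²(ℤ^d)` with `U 0 = 1` and
`i ∂_t (U_t u) = Δ_ω U_t u` at every site -/
structure IsPropagator {d : ℕ} (ω : (Fin d → ℤ) → ℝ) (U : ℝ → L2 d → L2 d) : Prop where
  zero : ∀ u, U 0 u = u
  norm : ∀ t u, ‖U t u‖ = ‖u‖
  schrodinger : ∀ u t j, HasDerivAt (fun s => (U s u) j)
    (-Complex.I * H ω (fun k => (U t u) k) j) t

/-- `v` is the velocity operator `i[Δ_ω, x_i]`, `(v u)(j) = -i (u(j+e_i) - u(j-e_i))` -/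
def IsVelocity {d : ℕ} (i : Fin d) (v : L2 d → L2 d) : Prop :=
  ∀ u j, (v u) j = -Complex.I * (u (j + Pi.single i 1) - u (j - Pi.single i 1))

/-- the second moment `∑_x |x|² |u(x)|²` of the position in the state `u` -/
noncomputable def secondMoment {d : ℕ} (u : L2 d) : ℝ≥0∞ :=
  ∑' x : Fin d → ℤ, ENNReal.ofReal (∑ i : Fin d, (x i : ℝ) ^ 2) * ‖u x‖ₑ ^ 2

/-- the law of iid variables with law `μ` on `ℤ^d` -/
noncomputable def iid (d : ℕ) (μ : Measure ℝ) : Measure ((Fin d → ℤ) → ℝ) :=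
  Measure.infinitePi fun _ => μ

/-- `μ` has a bounded density -/
def BoundedDensity (μ : Measure ℝ) : Prop := ∃ C : ℝ≥0, μ ≤ C • (volume : Measure ℝ)

/-- the uniform law on `[-c,c]` -/
noncomputable def uniform (c : ℝ) : Measure ℝ :=
  ENNReal.ofReal (2 * c)⁻¹ • (volume : Measure ℝ).restrict (Set.Icc (-c) c)

open Pool.Agent.H5R2.NB

theorem sol_of_prop {d : ℕ} {ω : (Fin d → ℤ) → ℝ} {U : ℝ → L2 d → L2 d}
    (hU : IsPropagator ω U) (u : L2 d) :
    IsSol (-1) (fun x => 2 * d + 1 * ω x) (fun t => U t u) (fun _ => 0) := by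
  refine ⟨fun T => ⟨‖u‖, fun t _ => (hU.norm t u).le⟩, fun t x => ?_⟩
  have h := hU.schrodinger u t x
  have e := FIN.hop_eq ω (fun k => (U t u) k) x
  have e2 : -Complex.I * (hopf (-1) (fun y => (U t u) y) x +
      (((fun x => 2 * d + 1 * ω x) x : ℝ) : ℂ) * (U t u) x) + ((0 : L2 d) : (Fin d → ℤ) → ℂ) x =
      -Complex.I * H ω (fun k => (U t u) k) x := by
    have e3 : H ω (fun k => (U t u) k) x = -(∑ i : Fin d,
        (((U t u) (x + Pi.single i 1) - (U t u) x) + ((U t u) (x - Pi.single i 1) - (U t u) x))) +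
        (ω x : ℂ) * (U t u) x := rfl
    rw [e3, ← e]
    simp
  rw [e2]
  exact h

theorem prop_of_grp {d : ℕ} {ω : (Fin d → ℤ) → ℝ} {W : UG (Pool.Agent.H5R2.NB.L2 (Site d))}
    (hW : IsGrp (-1) (fun x => 2 * d + 1 * ω x) W) : IsPropagator ω (fun t u => W.U t u) := by
  refine ⟨W.zero', W.norm', fun u t x => ?_⟩
  have h := (hW u).2 t x
  have e := FIN.hop_eq ω (fun k => (W.U t u) k) x
  have e3 : H ω (fun k => (W.U t u) k) x = -(∑ i : Fin d,
        (((W.U t u) (x + Pi.single i 1) - (W.U t u) x) +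
          ((W.U t u) (x - Pi.single i 1) - (W.U t u) x))) + (ω x : ℂ) * (W.U t u) x := rfl
  rw [e3, ← e]
  simpa using h

theorem prop_eq {d : ℕ} {ω : (Fin d → ℤ) → ℝ} {W : UG (Pool.Agent.H5R2.NB.L2 (Site d))}
    (hW : IsGrp (-1) (fun x => 2 * d + 1 * ω x) W) {U : ℝ → L2 d → L2 d}
    (hU : IsPropagator ω U) (t : ℝ) (u : L2 d) : U t u = W.U t u := by
  have h := Pool.Agent.H5R2.NB.ALL.a_UN d (-1) _ W hW (fun t => U t u) (fun _ => 0)
    continuous_const (sol_of_prop hU u) t
  simpa [hU.zero u] using h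

theorem second_eq {d : ℕ} (u : L2 d) :
    secondMoment u = ∑ j : Fin d, Pool.Agent.R988.NQ.m2 j u := by
  unfold secondMoment Pool.Agent.R988.NQ.m2
  have e2 : ∀ x : Site d, ENNReal.ofReal (∑ i : Fin d, (x i : ℝ) ^ 2) *
      ‖u x‖ₑ ^ 2 = ∑ j : Fin d, ENNReal.ofReal ((x j : ℝ) ^ 2) * ‖u x‖ₑ ^ 2 := by
    intro x
    rw [ENNReal.ofReal_sum_of_nonneg (fun i _ => sq_nonneg _), Finset.sum_mul]
  simp_rw [e2]
  rw [Summable.tsum_finsetSum (fun i _ => ENNReal.summable)]

theorem tendsto_aux {a : ℝ≥0∞} (ha : a ≠ ∞) {g : ℝ → ℝ≥0∞}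
    (hg : Tendsto (fun t : ℝ => g t / ENNReal.ofReal (t ^ 2)) atTop (𝓝 0)) :
    Tendsto (fun t : ℝ => (2 * a + 2 * g t) / ENNReal.ofReal (t ^ 2)) atTop (𝓝 0) := by
  have h1 : Tendsto (fun t : ℝ => 2 * a / ENNReal.ofReal (t ^ 2)) atTop (𝓝 0) := by
    have hp : Tendsto (fun t : ℝ => ENNReal.ofReal (t ^ 2)) atTop (𝓝 ∞) :=
      ENNReal.tendsto_ofReal_atTop.comp (tendsto_pow_atTop (by norm_num))
    have h2a : 2 * a ≠ ∞ := ENNReal.mul_ne_top (by norm_num) ha
    have := ENNReal.Tendsto.const_div (a := 2 * a) hp (Or.inr h2a)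
    simpa using this
  have h2 := ENNReal.Tendsto.const_mul (a := 2) hg (Or.inr (by norm_num))
  have h3 := h1.add h2
  simp only [mul_zero, add_zero] at h3
  refine h3.congr fun t => ?_
  rw [ENNReal.add_div, mul_div_assoc (2 : ℝ≥0∞) (g t)]

/-- The uniform law on `[-c,c]` is a probability measure with a bounded density (`c > 0`). For every
law `μ` with a bounded density: the unitary group `e^{-itΔ_ω}` exists and is unique for every `ω`, and
for almost every `ω` (iid with law `μ`), (a) for every `u` in `ℓ²` with finite second moment the second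
moment of `e^{-itΔ_ω} u` is `o(t²)` as `t → ∞`, (b) for every `u` in `ℓ²` and every direction the time
average over `[0,T]` of `e^{isΔ_ω} v e^{-isΔ_ω} u` tends to zero in `ℓ²` as `T → ∞`. -/
theorem result (d : ℕ) :
    (∀ c : ℝ, 0 < c → IsProbabilityMeasure (uniform c) ∧ BoundedDensity (uniform c)) ∧
    ∀ (μ : Measure ℝ) [IsProbabilityMeasure μ], BoundedDensity μ →
      (∀ ω : (Fin d → ℤ) → ℝ, ∃! U : ℝ → L2 d → L2 d, IsPropagator ω U) ∧
      ∀ U : ((Fin d → ℤ) → ℝ) → ℝ → L2 d → L2 d, (∀ ω, IsPropagator ω (U ω)) →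
        ∀ᵐ ω ∂(iid d μ),
          (∀ u : L2 d, secondMoment u ≠ ∞ →
            Tendsto (fun t : ℝ => secondMoment (U ω t u) / ENNReal.ofReal (t ^ 2)) atTop (𝓝 0)) ∧
          ∀ i : Fin d, ∃ v : L2 d → L2 d, IsVelocity i v ∧ ∀ u : L2 d,
            Tendsto (fun T : ℝ => ((T : ℂ)⁻¹) • ∫ s in (0 : ℝ)..T, U ω (-s) (v (U ω s u)))
              atTop (𝓝 0) := by
  refine ⟨fun c hc => ⟨LAW.uniform_prob c hc, _, LAW.uniform_le c⟩,
    fun μ _ hμ => ⟨fun ω => ?_, fun U hU => ?_⟩⟩
  · obtain ⟨W, hW⟩ := Pool.Agent.H5R2.NB.ALL.a_EX d (-1) (fun x => 2 * d + 1 * ω x)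
    refine ⟨fun t u => W.U t u, prop_of_grp hW, fun U hU => ?_⟩
    funext t u
    exact prop_eq hW hU t u
  · choose ev hev using fun V : Site d → ℝ => Pool.Agent.H5R2.NB.ALL.a_EX d (-1) V
    choose v hv using fun i : Fin d => (t_OPS d).2.2 (-1 : ℝ) i
    obtain ⟨C, hC⟩ := hμ
    have hg : Measurable (fun r : ℝ => 2 * (d : ℝ) + 1 * r) := by fun_prop
    have hpm : IsProbabilityMeasure (μ.map fun r : ℝ => 2 * (d : ℝ) + 1 * r) :=
      Measure.isProbabilityMeasure_map hg.aemeasurable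
    have hle := LAW.map_affine_le μ C hC (2 * d) 1 one_ne_zero
    have hmap : (iid d μ).map (fun (ω : Site d → ℝ) (x : Site d) => 2 * (d : ℝ) + 1 * ω x) =
        PP d (μ.map fun r : ℝ => 2 * (d : ℝ) + 1 * r) := by
      unfold PP iid
      exact Measure.infinitePi_map_pi (μ := fun _ : Site d => μ) (fun _ => hg)
    have hgm : Measurable (fun (ω : Site d → ℝ) (x : Site d) => 2 * (d : ℝ) + 1 * ω x) :=
      measurable_pi_iff.2 fun x => hg.comp (measurable_pi_apply x)
    have hUe : ∀ ω t u, U ω t u = (ev fun x => 2 * (d : ℝ) + 1 * ω x).U t u := by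
      intro ω t u
      exact prop_eq (hev _) (hU ω) t u
    have hall : ∀ᵐ V ∂(PP d (μ.map fun r : ℝ => 2 * (d : ℝ) + 1 * r)), ∀ i : Fin d, ∀ x,
        Tendsto (fun t : ℝ => t⁻¹ * ‖∫ s in (0 : ℝ)..t,
          (ev V).U (-s) (v i ((ev V).U s x))‖) atTop (𝓝 0) := by
      rw [ae_all_iff]
      intro i
      exact Pool.Agent.R988.NQ.velocity_zero hev hle (hv i)
    rw [← hmap] at hall
    have hall2 := ae_of_ae_map hgm.aemeasurable hall
    filter_upwards [hall2] with ω hω
    refine ⟨fun u hu => ?_, fun i => ⟨fun u => v i u, fun u x => ?_, fun u => ?_⟩⟩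
    · have hterm : ∀ j : Fin d, Tendsto (fun t : ℝ =>
          Pool.Agent.R988.NQ.m2 j (U ω t u) / ENNReal.ofReal (t ^ 2)) atTop (𝓝 0) := by
        intro j
        have hfin : Pool.Agent.R988.NQ.m2 j u ≠ ∞ := by
          rw [second_eq] at hu
          exact ne_top_of_le_ne_top hu
            (Finset.single_le_sum (f := fun j => Pool.Agent.R988.NQ.m2 j u)
              (fun _ _ => bot_le) (Finset.mem_univ j))
        have h1 : Tendsto (fun t : ℝ => ‖∫ s in (0 : ℝ)..t,
            (ev fun x => 2 * (d : ℝ) + 1 * ω x).U (-s)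
              (v j ((ev fun x => 2 * (d : ℝ) + 1 * ω x).U s u))‖ₑ ^ 2 /
              ENNReal.ofReal (t ^ 2)) atTop (𝓝 0) := by
          have h3 := (hω j u).pow 2
          rw [zero_pow (two_ne_zero)] at h3
          have h2 := (ENNReal.continuous_ofReal.tendsto 0).comp h3
          rw [ENNReal.ofReal_zero] at h2
          refine h2.congr' ?_
          filter_upwards [eventually_gt_atTop (0 : ℝ)] with t ht
          simp only [Function.comp]
          rw [mul_pow, mul_comm, inv_pow, ← div_eq_mul_inv,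
            ENNReal.ofReal_div_of_pos (by positivity), ENNReal.ofReal_pow (norm_nonneg _),
            ofReal_norm]
        refine tendsto_of_tendsto_of_tendsto_of_le_of_le tendsto_const_nhds
          (tendsto_aux hfin h1) (fun t => bot_le) fun t => ?_
        refine ENNReal.div_le_div_right ?_ _
        rw [hUe]
        exact Pool.Agent.R988.NQ.mom_le (-1) _ _ (hev _) j (v j) (hv j) u t
      have hsum := tendsto_finsetSum (Finset.univ : Finset (Fin d)) (fun j _ => hterm j)
      simp only [Finset.sum_const_zero] at hsum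
      refine hsum.congr fun t => ?_
      rw [second_eq, ENNReal.div_eq_inv_mul, Finset.mul_sum]
      refine Finset.sum_congr rfl fun j _ => ?_
      rw [ENNReal.div_eq_inv_mul]
    · have := hv i u x
      rw [this]
      push_cast
      ring
    · rw [tendsto_zero_iff_norm_tendsto_zero]
      refine (hω i u).congr' ?_
      filter_upwards [eventually_gt_atTop (0 : ℝ)] with t ht
      rw [norm_smul, norm_inv, Complex.norm_real, Real.norm_eq_abs, abs_of_pos ht]
      congr 2
      refine intervalIntegral.integral_congr fun s _ => ?_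
      show _ = U ω (-s) (v i (U ω s u))
      rw [hUe, hUe]

end Pool.Agent.Results.MP_562b47_mp.NoBallisticMotion
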